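import Mathlib
import Pool.Agent.Helper73.LR.Defs
import Pool.Agent.Helper73.LR.Final

namespace Pool.Agent.Results.MP_f10232_lc.LinearUndecidable

open Pool.Agent.Helper73.LR

/-- Termination of a single linear (left-linear and right-linear) rewrite rule is undecidable,
even for a fixed finite signature and a fixed left-hand side: there are a finite signature and a
linear term `l` over it such that no algorithm decides, for all linear rules `l → r` over this
signature, whether the rule is terminating. -/
theorem result : ∃ (m : ℕ) (ar : Fin m → ℕ) (l : Tm (Fin m) ar ℕ), l.Linear ∧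
    ¬ ∃ P : List ℕ × List ℕ × List ℕ → Prop, ComputablePred P ∧
      ∀ r : Tm (Fin m) ar ℕ, IsRule l r → r.Linear → (P (input l r) ↔ Terminating l r) := by
  obtain ⟨m, ar, l, r, h1, h2, h3, h4, h5⟩ := exists_family
  refine ⟨m, ar, l, h2, ?_⟩
  rintro ⟨P, hP, h⟩
  apply h5
  obtain ⟨f, hf1, hf2⟩ := ComputablePred.computable_iff.1 hP
  refine ComputablePred.computable_iff.2 ⟨fun k => f (input l (r k)), hf1.comp h4, ?_⟩
  funext k
  rw [← propext (h (r k) (h1 k) (h3 k)), hf2]

end Pool.Agent.Results.MP_f10232_lc.LinearUndecidable
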